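import Pool.Agent.Y472.L.Defs

/-! Project TA, job TA-JTD (helper769): from the derivatives along lines to the function. -/

set_option autoImplicit false

namespace Pool.Agent.Y769.TA

open Finset Filter Topology Pool.Agent.Y472.K Pool.Agent.Y472.L
open scoped Real Nat

lemma pI_ne : pI ≠ 0 := by
  unfold pI
  have h1 : (π : ℂ) ≠ 0 := by exact_mod_cast Real.pi_ne_zero
  exact mul_ne_zero (mul_ne_zero two_ne_zero h1) Complex.I_ne_zero

section

variable {ι : Type} [Fintype ι] {E : Subfield ℂ} {κ : ℂ}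

lemma mn_mul_a (m : ℤ) (α : ι → ℕ) (β : ℕ) (a : ι) [DecidableEq ι] (t : (ι → ℝ) × ℝ) :
    (pI * t.1 a) * mn κ m α β t = mn κ m (α + Pi.single a 1) β t := by
  unfold mn
  have h : ∏ b, (pI * (t.1 b : ℂ)) ^ (α + Pi.single a 1 : ι → ℕ) b =
      (∏ b, (pI * (t.1 b : ℂ)) ^ α b) * (pI * t.1 a) := by
    have h1 : ∀ b, (pI * (t.1 b : ℂ)) ^ (α + Pi.single a 1 : ι → ℕ) b =
        (pI * (t.1 b : ℂ)) ^ α b * (pI * (t.1 b : ℂ)) ^ (Pi.single a 1 : ι → ℕ) b := by
      intro b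
      rw [Pi.add_apply, pow_add]
    rw [Finset.prod_congr rfl fun b _ => h1 b, Finset.prod_mul_distrib]
    congr 1
    rw [Finset.prod_eq_single a]
    · simp
    · intro b _ hb
      rw [Pi.single_eq_of_ne hb, pow_zero]
    · intro h2; exact absurd (Finset.mem_univ a) h2
  rw [h]; ring

lemma mn_mul_b (m : ℤ) (α : ι → ℕ) (β : ℕ) (t : (ι → ℝ) × ℝ) :
    (κ * t.2) * mn κ m α β t = mn κ m α (β + 1) t := by
  unfold mn
  rw [pow_succ]; ring

lemma HP_a {m : ℤ} {k : ℕ} (a : ι) {g : ((ι → ℝ) × ℝ) → ℂ} (hg : g ∈ HP E κ m k) :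
    (fun t => (pI * t.1 a) * g t) ∈ HP E κ m (k + 1) := by
  classical
  unfold HP at hg
  induction hg using Submodule.span_induction with
  | mem x hx =>
    obtain ⟨α, β, h1, rfl⟩ := hx
    apply Submodule.subset_span
    refine ⟨α + Pi.single a 1, β, ?_, ?_⟩
    · simp only [Pi.add_apply, Finset.sum_add_distrib, Finset.sum_pi_single', Finset.mem_univ,
        if_true]
      omega
    · funext t
      exact mn_mul_a m α β a t
  | zero =>
    have h : (fun t : (ι → ℝ) × ℝ => (pI * (t.1 a : ℂ)) * (0 : ((ι → ℝ) × ℝ) → ℂ) t) = 0 := by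
      funext t; simp
    rw [h]; exact Submodule.zero_mem _
  | add x y _ _ hx hy =>
    have h : (fun t : (ι → ℝ) × ℝ => (pI * (t.1 a : ℂ)) * (x + y) t) =
        (fun t => (pI * t.1 a) * x t) + fun t => (pI * t.1 a) * y t := by
      funext t; simp [mul_add]
    rw [h]; exact Submodule.add_mem _ hx hy
  | smul c x _ hx =>
    have h : (fun t : (ι → ℝ) × ℝ => (pI * (t.1 a : ℂ)) * (c • x) t) =
        c • fun t => (pI * t.1 a) * x t := by
      funext t
      simp only [Pi.smul_apply, Subfield.smul_def, smul_eq_mul]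
      ring
    rw [h]; exact Submodule.smul_mem _ _ hx

lemma HP_b {m : ℤ} {k : ℕ} {g : ((ι → ℝ) × ℝ) → ℂ} (hg : g ∈ HP E κ m k) :
    (fun t => (κ * t.2) * g t) ∈ HP E κ m (k + 1) := by
  unfold HP at hg
  induction hg using Submodule.span_induction with
  | mem x hx =>
    obtain ⟨α, β, h1, rfl⟩ := hx
    apply Submodule.subset_span
    refine ⟨α, β + 1, ?_, ?_⟩
    · omega
    · funext t
      exact mn_mul_b m α β t
  | zero =>
    have h : (fun t : (ι → ℝ) × ℝ => (κ * (t.2 : ℂ)) * (0 : ((ι → ℝ) × ℝ) → ℂ) t) = 0 := by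
      funext t; simp
    rw [h]; exact Submodule.zero_mem _
  | add x y _ _ hx hy =>
    have h : (fun t : (ι → ℝ) × ℝ => (κ * (t.2 : ℂ)) * (x + y) t) =
        (fun t => (κ * t.2) * x t) + fun t => (κ * t.2) * y t := by
      funext t; simp [mul_add]
    rw [h]; exact Submodule.add_mem _ hx hy
  | smul c x _ hx =>
    have h : (fun t : (ι → ℝ) × ℝ => (κ * (t.2 : ℂ)) * (c • x) t) =
        c • fun t => (κ * t.2) * x t := by
      funext t
      simp only [Pi.smul_apply, Subfield.smul_def, smul_eq_mul]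
      ring
    rw [h]; exact Submodule.smul_mem _ _ hx

lemma HP_nat {m : ℤ} {k : ℕ} (n : ℕ) {g g' : ((ι → ℝ) × ℝ) → ℂ} (hn : n ≠ 0)
    (hg : g ∈ HP E κ m k) (h : ∀ t, (n : ℂ) * g' t = g t) : g' ∈ HP E κ m k := by
  have h1 : g' = ((n : E)⁻¹) • g := by
    funext t
    have hn' : (n : ℂ) ≠ 0 := by exact_mod_cast hn
    simp only [Pi.smul_apply, Subfield.smul_def, smul_eq_mul]
    rw [← h t]
    push_cast
    field_simp
  rw [h1]
  exact Submodule.smul_mem _ _ hg

lemma line_an {f : (ι → ℂ) × ℂ → ℂ} {p₀ : (ι → ℂ) × ℂ} (h : AnalyticAt ℂ f p₀)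
    (t : (ι → ℝ) × ℝ) : AnalyticAt ℂ (fun z : ℂ => f (p₀ + z • cst t)) 0 := by
  have h1 : AnalyticAt ℂ (fun z : ℂ => p₀ + z • cst t) 0 :=
    analyticAt_const.add (analyticAt_id.smul analyticAt_const)
  exact h.comp_of_eq h1 (by simp)

lemma itd_sum {J : Type} (s : Finset J) (k : ℕ) (F : J → ℂ → ℂ)
    (hF : ∀ j ∈ s, AnalyticAt ℂ (F j) 0) :
    iteratedDeriv k (fun z => ∑ j ∈ s, F j z) 0 = ∑ j ∈ s, iteratedDeriv k (F j) 0 := by
  classical
  induction s using Finset.induction_on with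
  | empty =>
    simp only [Finset.sum_empty]
    have := iteratedDeriv_const_mul_field (n := k) (x := (0 : ℂ)) (0 : ℂ) (fun _ : ℂ => (0 : ℂ))
    simpa using this
  | insert a s ha ih =>
    have h1 : (fun z => ∑ j ∈ insert a s, F j z) = F a + fun z => ∑ j ∈ s, F j z := by
      funext z
      rw [Finset.sum_insert ha]; rfl
    have h2 : AnalyticAt ℂ (fun z => ∑ j ∈ s, F j z) 0 :=
      Finset.analyticAt_fun_sum s fun j hj => hF j (Finset.mem_insert_of_mem hj)
    rw [h1, iteratedDeriv_add (hF a (Finset.mem_insert_self a s)).contDiffAt h2.contDiffAt,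
      ih (fun j hj => hF j (Finset.mem_insert_of_mem hj)), Finset.sum_insert ha]

lemma itd_add (k : ℕ) {F G : ℂ → ℂ} (hF : AnalyticAt ℂ F 0) (hG : AnalyticAt ℂ G 0) :
    iteratedDeriv k (fun z => F z + G z) 0 = iteratedDeriv k F 0 + iteratedDeriv k G 0 := by
  have h := iteratedDeriv_add (n := k) hF.contDiffAt hG.contDiffAt
  exact h

lemma tc_eq (f : (ι → ℂ) × ℂ → ℂ) (p₀ : (ι → ℂ) × ℂ) (k : ℕ) (t : (ι → ℝ) × ℝ) :
    iteratedDeriv k (fun z : ℂ => f (p₀ + z • cst t)) 0 = (k ! : ℂ) * tc f p₀ k t := by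
  unfold tc
  have h : (k ! : ℂ) ≠ 0 := by exact_mod_cast Nat.factorial_ne_zero k
  field_simp

end

theorem jtd : S_JTD := by
  intro ι _ E κ p₀ hκ
  constructor
  · intro m f A B hf hA hB hd
    refine ⟨hf, fun k hk => ?_⟩
    obtain ⟨k, rfl⟩ : ∃ j, k = j + 1 := ⟨k - 1, by omega⟩
    have key : ∀ t : (ι → ℝ) × ℝ, ((k + 1 : ℕ) : ℂ) * tc f p₀ (k + 1) t =
        (∑ a, (pI * t.1 a) * tc (A a) p₀ k t) + (κ * t.2) * tc B p₀ k t := by
      intro t
      have h1 := tc_eq f p₀ (k + 1) t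
      rw [iteratedDeriv_succ'] at h1
      have h2 : deriv (fun z : ℂ => f (p₀ + z • cst t)) =ᶠ[𝓝 0]
          fun z => (∑ a, (pI * t.1 a) * A a (p₀ + z • cst t)) + (κ * t.2) * B (p₀ + z • cst t) :=
        hd t
      have h3 : ∀ a ∈ (Finset.univ : Finset ι),
          AnalyticAt ℂ (fun z : ℂ => (pI * t.1 a) * A a (p₀ + z • cst t)) 0 :=
        fun a _ => analyticAt_const.mul (line_an (hA a).an t)
      have h4 : AnalyticAt ℂ (fun z : ℂ => ∑ a, (pI * t.1 a) * A a (p₀ + z • cst t)) 0 :=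
        Finset.analyticAt_fun_sum _ h3
      have h5 : AnalyticAt ℂ (fun z : ℂ => (κ * t.2) * B (p₀ + z • cst t)) 0 :=
        analyticAt_const.mul (line_an hB.an t)
      rw [(h2.iteratedDeriv k).eq_of_nhds, itd_add k h4 h5,
        itd_sum Finset.univ k (fun a z => (pI * t.1 a) * A a (p₀ + z • cst t)) h3] at h1
      simp only [iteratedDeriv_const_mul_field, tc_eq] at h1
      have hk0 : ((k ! : ℕ) : ℂ) ≠ 0 := by exact_mod_cast Nat.factorial_ne_zero k
      apply mul_left_cancel₀ hk0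
      rw [Nat.factorial_succ] at h1
      have h6 : ∑ a, (pI * (t.1 a : ℂ)) * ((k ! : ℂ) * tc (A a) p₀ k t) =
          (k ! : ℂ) * ∑ a, (pI * t.1 a) * tc (A a) p₀ k t := by
        rw [Finset.mul_sum]
        exact Finset.sum_congr rfl fun a _ => by ring
      rw [h6] at h1
      push_cast at h1 ⊢
      linear_combination -h1
    apply HP_nat (k + 1) (by omega) _ key
    apply Submodule.add_mem
    · have h : (fun t : (ι → ℝ) × ℝ => ∑ a, (pI * (t.1 a : ℂ)) * tc (A a) p₀ k t) =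
          ∑ a, fun t : (ι → ℝ) × ℝ => (pI * (t.1 a : ℂ)) * tc (A a) p₀ k t := by
        funext t; rw [Finset.sum_apply]
      rw [h]
      exact Submodule.sum_mem _ fun a _ => HP_a a ((hA a).tc k (Nat.zero_le k))
    · exact HP_b (hB.tc k (Nat.zero_le k))
  · intro m f A B C hf hA hB hC hd
    refine ⟨hf, fun k hk => ?_⟩
    obtain ⟨k, rfl⟩ : ∃ j, k = j + 2 := ⟨k - 2, by omega⟩
    have key : ∀ t : (ι → ℝ) × ℝ, (((k + 2) * (k + 1) : ℕ) : ℂ) * tc f p₀ (k + 2) t =
        ((∑ a, (pI * t.1 a) * ∑ b, (pI * t.1 b) * tc (A a b) p₀ k t) +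
          (∑ a, (pI * t.1 a) * ((κ * t.2) * tc (B a) p₀ k t))) +
          (κ * t.2) * ((κ * t.2) * tc C p₀ k t) := by
      intro t
      have h1 := tc_eq f p₀ (k + 2) t
      rw [show k + 2 = k + 1 + 1 from rfl, iteratedDeriv_succ', iteratedDeriv_succ'] at h1
      have h2 : deriv (deriv (fun z : ℂ => f (p₀ + z • cst t))) =ᶠ[𝓝 0]
          fun z => (∑ a, ∑ b, (pI * t.1 a) * (pI * t.1 b) * A a b (p₀ + z • cst t)) +
            (∑ a, (pI * t.1 a) * (κ * t.2) * B a (p₀ + z • cst t)) +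
            (κ * t.2) ^ 2 * C (p₀ + z • cst t) := hd t
      have h3 : ∀ a, ∀ b ∈ (Finset.univ : Finset ι),
          AnalyticAt ℂ (fun z : ℂ => (pI * t.1 a) * (pI * t.1 b) * A a b (p₀ + z • cst t)) 0 :=
        fun a b _ => analyticAt_const.mul (line_an (hA a b).an t)
      have h3' : ∀ a ∈ (Finset.univ : Finset ι),
          AnalyticAt ℂ (fun z : ℂ => ∑ b, (pI * t.1 a) * (pI * t.1 b) * A a b (p₀ + z • cst t)) 0 :=
        fun a _ => Finset.analyticAt_fun_sum _ (h3 a)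
      have h4 : AnalyticAt ℂ
          (fun z : ℂ => ∑ a, ∑ b, (pI * t.1 a) * (pI * t.1 b) * A a b (p₀ + z • cst t)) 0 :=
        Finset.analyticAt_fun_sum _ h3'
      have h5 : ∀ a ∈ (Finset.univ : Finset ι),
          AnalyticAt ℂ (fun z : ℂ => (pI * t.1 a) * (κ * t.2) * B a (p₀ + z • cst t)) 0 :=
        fun a _ => analyticAt_const.mul (line_an (hB a).an t)
      have h6 : AnalyticAt ℂ (fun z : ℂ => ∑ a, (pI * t.1 a) * (κ * t.2) * B a (p₀ + z • cst t)) 0 :=
        Finset.analyticAt_fun_sum _ h5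
      have h7 : AnalyticAt ℂ (fun z : ℂ => (κ * t.2) ^ 2 * C (p₀ + z • cst t)) 0 :=
        analyticAt_const.mul (line_an hC.an t)
      have h8 : ∀ a, iteratedDeriv k (fun z : ℂ => ∑ b, (pI * t.1 a) * (pI * t.1 b) *
          A a b (p₀ + z • cst t)) 0 = ∑ b, (pI * t.1 a) * (pI * t.1 b) *
            ((k ! : ℂ) * tc (A a b) p₀ k t) := by
        intro a
        rw [itd_sum Finset.univ k
          (fun b z => (pI * t.1 a) * (pI * t.1 b) * A a b (p₀ + z • cst t)) (h3 a)]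
        simp only [iteratedDeriv_const_mul_field, tc_eq]
      have h46 : AnalyticAt ℂ (fun z : ℂ =>
          (∑ a, ∑ b, (pI * t.1 a) * (pI * t.1 b) * A a b (p₀ + z • cst t)) +
            (∑ a, (pI * t.1 a) * (κ * t.2) * B a (p₀ + z • cst t))) 0 := h4.add h6
      rw [(h2.iteratedDeriv k).eq_of_nhds, itd_add k h46 h7, itd_add k h4 h6,
        itd_sum Finset.univ k
          (fun a z => ∑ b, (pI * t.1 a) * (pI * t.1 b) * A a b (p₀ + z • cst t)) h3',
        itd_sum Finset.univ k (fun a z => (pI * t.1 a) * (κ * t.2) * B a (p₀ + z • cst t)) h5,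
        Finset.sum_congr rfl fun a _ => h8 a] at h1
      simp only [iteratedDeriv_const_mul_field, tc_eq] at h1
      have hk0 : ((k ! : ℕ) : ℂ) ≠ 0 := by exact_mod_cast Nat.factorial_ne_zero k
      apply mul_left_cancel₀ hk0
      rw [Nat.factorial_succ, Nat.factorial_succ] at h1
      have h9 : ∑ a, ∑ b, (pI * (t.1 a : ℂ)) * (pI * (t.1 b : ℂ)) * ((k ! : ℂ) * tc (A a b) p₀ k t) =
          (k ! : ℂ) * ∑ a, (pI * t.1 a) * ∑ b, (pI * t.1 b) * tc (A a b) p₀ k t := by
        rw [Finset.mul_sum]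
        refine Finset.sum_congr rfl fun a _ => ?_
        rw [← mul_assoc, Finset.mul_sum]
        exact Finset.sum_congr rfl fun b _ => by ring
      have h10 : ∑ a, (pI * (t.1 a : ℂ)) * (κ * (t.2 : ℂ)) * ((k ! : ℂ) * tc (B a) p₀ k t) =
          (k ! : ℂ) * ∑ a, (pI * t.1 a) * ((κ * t.2) * tc (B a) p₀ k t) := by
        rw [Finset.mul_sum]
        exact Finset.sum_congr rfl fun a _ => by ring
      rw [h9, h10] at h1
      push_cast at h1 ⊢
      linear_combination -h1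
    apply HP_nat ((k + 2) * (k + 1)) (by positivity) _ key
    apply Submodule.add_mem
    · apply Submodule.add_mem
      · have h : (fun t : (ι → ℝ) × ℝ =>
            ∑ a, (pI * (t.1 a : ℂ)) * ∑ b, (pI * (t.1 b : ℂ)) * tc (A a b) p₀ k t) =
            ∑ a, fun t : (ι → ℝ) × ℝ =>
              (pI * (t.1 a : ℂ)) * ∑ b, (pI * (t.1 b : ℂ)) * tc (A a b) p₀ k t := by
          funext t; rw [Finset.sum_apply]
        rw [h]
        refine Submodule.sum_mem _ fun a _ => HP_a a ?_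
        have h' : (fun t : (ι → ℝ) × ℝ => ∑ b, (pI * (t.1 b : ℂ)) * tc (A a b) p₀ k t) =
            ∑ b, fun t : (ι → ℝ) × ℝ => (pI * (t.1 b : ℂ)) * tc (A a b) p₀ k t := by
          funext t; rw [Finset.sum_apply]
        rw [h']
        exact Submodule.sum_mem _ fun b _ => HP_a b ((hA a b).tc k (Nat.zero_le k))
      · have h : (fun t : (ι → ℝ) × ℝ =>
            ∑ a, (pI * (t.1 a : ℂ)) * ((κ * (t.2 : ℂ)) * tc (B a) p₀ k t)) =
            ∑ a, fun t : (ι → ℝ) × ℝ =>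
              (pI * (t.1 a : ℂ)) * ((κ * (t.2 : ℂ)) * tc (B a) p₀ k t) := by
          funext t; rw [Finset.sum_apply]
        rw [h]
        exact Submodule.sum_mem _ fun a _ => HP_a a (HP_b ((hB a).tc k (Nat.zero_le k)))
    · exact HP_b (HP_b (hC.tc k (Nat.zero_le k)))

end Pool.Agent.Y769.TA
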